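import Pool.Agent.Q156.TripleLinear
import Pool.Agent.Q156.SuppFun

/-!
Every rotor in a regular triangular prism is a ball.
-/

open MeasureTheory Metric Module Set
open scoped RealInnerProductSpace Real

namespace Pool.Agent.Results.MP_c2e62a_gt.RotorsAreBalls

open Pool.Agent.Q156 Pool.Agent.Q156.Triple

/-- The Euclidean plane. -/
abbrev E2 : Type := EuclideanSpace ℝ (Fin 2)

/-- The first two coordinates. -/
noncomputable def shadow (x : EuclideanSpace ℝ (Fin 3)) : E2 := !₂[x 0, x 1]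

/-- The infinite prism over the triangle with vertices `A 0, A 1, A 2`. -/
def prism (A : Fin 3 → E2) : Set (EuclideanSpace ℝ (Fin 3)) :=
  {x | shadow x ∈ convexHull ℝ (Set.range A)}

/-- The face of the prism over the edge opposite to `A i`. -/
def face (A : Fin 3 → E2) (i : Fin 3) : Set (EuclideanSpace ℝ (Fin 3)) :=
  {x | shadow x ∈ segment ℝ (A (i + 1)) (A (i + 2))}

/-- A rotation of a Euclidean space: a linear isometry with determinant `1`. -/
def IsRotation {V : Type*} [NormedAddCommGroup V] [InnerProductSpace ℝ V] (ρ : V ≃ₗᵢ[ℝ] V) :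
    Prop := LinearMap.det (ρ.toLinearEquiv : V →ₗ[ℝ] V) = 1

/-- `K` is a rotor in `P` with faces `F i`: for every rotation `ρ` there is a vector `t` such that
`ρ K + t` is contained in `P` and meets each of the faces `F i`. -/
def IsRotor {V : Type*} [NormedAddCommGroup V] [InnerProductSpace ℝ V] (P : Set V)
    (F : Fin 3 → Set V) (K : Set V) : Prop :=
  ∀ ρ : V ≃ₗᵢ[ℝ] V, IsRotation ρ →
    ∃ t : V, (∀ x ∈ K, ρ x + t ∈ P) ∧ ∀ i, ∃ x ∈ K, ρ x + t ∈ F i

theorem abs_det_isometry (ρ : E3 ≃ₗᵢ[ℝ] E3) :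
    |LinearMap.det (ρ.toLinearEquiv : E3 →ₗ[ℝ] E3)| = 1 := by
  have h := LinearIsometry.normDet_eq_one ρ.toLinearIsometry
  rw [LinearMap.normDet_eq_abs_det] at h
  exact h

/-- Two unit vectors can be rotated to two unit vectors in the horizontal plane with the same
inner product. -/
theorem exists_rotation (a b n m : E3) (ha : ‖a‖ = 1) (hb : ‖b‖ = 1) (hn : ‖n‖ = 1) (hm : ‖m‖ = 1)
    (h : ⟪a, b⟫ = ⟪n, m⟫) (hn2 : n 2 = 0) (hm2 : m 2 = 0) :
    ∃ ρ : E3 ≃ₗᵢ[ℝ] E3, LinearMap.det (ρ.toLinearEquiv : E3 →ₗ[ℝ] E3) = 1 ∧ ρ a = n ∧ ρ b = m := by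
  obtain ⟨R1, hR1⟩ : ∃ R : E3 ≃ₗᵢ[ℝ] E3, R a = n :=
    ⟨(ℝ ∙ (a - n))ᗮ.reflection, Submodule.reflection_sub (by rw [ha, hn])⟩
  obtain ⟨b1, hb1⟩ : ∃ b1, b1 = R1 b := ⟨_, rfl⟩
  have hb1n : ‖b1‖ = 1 := by rw [hb1, R1.norm_map, hb]
  have hin : ⟪n, b1⟫ = ⟪n, m⟫ := by rw [← hR1, hb1, R1.inner_map_map, h, hR1]
  have hR2m : (ℝ ∙ (b1 - m))ᗮ.reflection b1 = m := Submodule.reflection_sub (by rw [hb1n, hm])
  have hR2n : (ℝ ∙ (b1 - m))ᗮ.reflection n = n := by
    apply Submodule.reflection_mem_subspace_eq_self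
    rw [Submodule.mem_orthogonal_singleton_iff_inner_left, inner_sub_right, hin, sub_self]
  obtain ⟨R, hRa, hRb⟩ : ∃ R : E3 ≃ₗᵢ[ℝ] E3, R a = n ∧ R b = m := by
    refine ⟨R1.trans (ℝ ∙ (b1 - m))ᗮ.reflection, ?_, ?_⟩
    · change (ℝ ∙ (b1 - m))ᗮ.reflection (R1 a) = n
      rw [hR1, hR2n]
    · change (ℝ ∙ (b1 - m))ᗮ.reflection (R1 b) = m
      rw [← hb1, hR2m]
  have habs := abs_det_isometry R
  rcases (abs_eq (by norm_num : (0 : ℝ) ≤ 1)).mp habs with hd | hd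
  · exact ⟨R, hd, hRa, hRb⟩
  · -- compose with the reflection in the horizontal plane
    obtain ⟨e, he⟩ : ∃ e : E3, e = !₂[0, 0, 1] := ⟨_, rfl⟩
    have hfix : ∀ v : E3, v 2 = 0 → (ℝ ∙ e)ᗮ.reflection v = v := by
      intro v hv
      apply Submodule.reflection_mem_subspace_eq_self
      rw [Submodule.mem_orthogonal_singleton_iff_inner_left, he, inner_E3, hv]
      simp
    have hdet : LinearMap.det (((ℝ ∙ e)ᗮ.reflection).toLinearEquiv : E3 →ₗ[ℝ] E3) = -1 := by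
      have h1 := (ℝ ∙ e)ᗮ.det_reflection
      rw [Submodule.orthogonal_orthogonal] at h1
      have hene : e ≠ 0 := by
        intro h0
        have := congrArg (fun x : E3 => x 2) h0
        rw [he] at this
        simp at this
      rw [finrank_span_singleton hene, pow_one] at h1
      exact h1
    refine ⟨R.trans (ℝ ∙ e)ᗮ.reflection, ?_, ?_, ?_⟩
    · have : ((R.trans (ℝ ∙ e)ᗮ.reflection).toLinearEquiv : E3 →ₗ[ℝ] E3) =
          (((ℝ ∙ e)ᗮ.reflection).toLinearEquiv : E3 →ₗ[ℝ] E3) ∘ₗ (R.toLinearEquiv : E3 →ₗ[ℝ] E3) := by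
        ext x; rfl
      rw [this, LinearMap.det_comp, hdet, hd]; norm_num
    · change (ℝ ∙ e)ᗮ.reflection (R a) = n
      rw [hRa, hfix n hn2]
    · change (ℝ ∙ e)ᗮ.reflection (R b) = m
      rw [hRb, hfix m hm2]

theorem inner_E2 (u v : E2) : ⟪u, v⟫ = u 0 * v 0 + u 1 * v 1 := by
  simp [PiLp.inner_apply, Fin.sum_univ_two]; ring

/-- Geometry of an equilateral triangle with centroid `G` and vertices `G + B i`. -/
theorem equilateral (A : Fin 3 → E2) (s : ℝ) (hA : ∀ i j, i ≠ j → dist (A i) (A j) = s) (G : E2)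
    (hG : G = (1 / 3 : ℝ) • (A 0 + A 1 + A 2)) :
    (∀ i, ⟪A i - G, A i - G⟫ = s ^ 2 / 3) ∧
      (∀ i j, i ≠ j → ⟪A i - G, A j - G⟫ = -(s ^ 2) / 6) ∧
      (A 0 - G) + (A 1 - G) + (A 2 - G) = 0 := by
  have hsum : (A 0 - G) + (A 1 - G) + (A 2 - G) = 0 := by
    rw [hG]; module
  obtain ⟨B0, hB0⟩ : ∃ B, B = A 0 - G := ⟨_, rfl⟩
  obtain ⟨B1, hB1⟩ : ∃ B, B = A 1 - G := ⟨_, rfl⟩
  obtain ⟨B2, hB2⟩ : ∃ B, B = A 2 - G := ⟨_, rfl⟩
  have d : ∀ i j, i ≠ j → ‖(A i - G) - (A j - G)‖ ^ 2 = s ^ 2 := by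
    intro i j hij
    rw [sub_sub_sub_cancel_right, ← dist_eq_norm, hA i j hij]
  have d01 := d 0 1 (by decide)
  have d02 := d 0 2 (by decide)
  have d12 := d 1 2 (by decide)
  rw [← hB0, ← hB1, ← hB2] at hsum
  rw [← hB0, ← hB1] at d01
  rw [← hB0, ← hB2] at d02
  rw [← hB1, ← hB2] at d12
  rw [@norm_sub_sq_real] at d01 d02 d12
  rw [← real_inner_self_eq_norm_sq, ← real_inner_self_eq_norm_sq] at d01 d02 d12
  have e0 : ⟪B0, B0⟫ + ⟪B0, B1⟫ + ⟪B0, B2⟫ = 0 := by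
    rw [← inner_add_right, ← inner_add_right, hsum, inner_zero_right]
  have e1 : ⟪B0, B1⟫ + ⟪B1, B1⟫ + ⟪B1, B2⟫ = 0 := by
    rw [real_inner_comm B1 B0, ← inner_add_right, ← inner_add_right, hsum, inner_zero_right]
  have e2 : ⟪B0, B2⟫ + ⟪B1, B2⟫ + ⟪B2, B2⟫ = 0 := by
    rw [real_inner_comm B2 B0, real_inner_comm B2 B1, ← inner_add_right, ← inner_add_right, hsum,
      inner_zero_right]
  have r00 : ⟪B0, B0⟫ = s ^ 2 / 3 := by linarith
  have r11 : ⟪B1, B1⟫ = s ^ 2 / 3 := by linarith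
  have r22 : ⟪B2, B2⟫ = s ^ 2 / 3 := by linarith
  have r01 : ⟪B0, B1⟫ = -(s ^ 2) / 6 := by linarith
  have r02 : ⟪B0, B2⟫ = -(s ^ 2) / 6 := by linarith
  have r12 : ⟪B1, B2⟫ = -(s ^ 2) / 6 := by linarith
  refine ⟨?_, ?_, by rw [← hB0, ← hB1, ← hB2]; exact hsum⟩
  · intro i
    fin_cases i
    · change ⟪A 0 - G, A 0 - G⟫ = _
      rw [← hB0, r00]
    · change ⟪A 1 - G, A 1 - G⟫ = _
      rw [← hB1, r11]
    · change ⟪A 2 - G, A 2 - G⟫ = _
      rw [← hB2, r22]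
  · intro i j hij
    fin_cases i <;> fin_cases j
    · exact absurd rfl hij
    · change ⟪A 0 - G, A 1 - G⟫ = _
      rw [← hB0, ← hB1, r01]
    · change ⟪A 0 - G, A 2 - G⟫ = _
      rw [← hB0, ← hB2, r02]
    · change ⟪A 1 - G, A 0 - G⟫ = _
      rw [← hB0, ← hB1, real_inner_comm, r01]
    · exact absurd rfl hij
    · change ⟪A 1 - G, A 2 - G⟫ = _
      rw [← hB1, ← hB2, r12]
    · change ⟪A 2 - G, A 0 - G⟫ = _
      rw [← hB0, ← hB2, real_inner_comm, r02]
    · change ⟪A 2 - G, A 1 - G⟫ = _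
      rw [← hB1, ← hB2, real_inner_comm, r12]
    · exact absurd rfl hij

/-- **Result.**  Every convex body which is a rotor in the infinite prism over an equilateral
triangle is a Euclidean ball (its radius is the inradius of the triangle). -/
theorem result (A : Fin 3 → EuclideanSpace ℝ (Fin 2)) (s : ℝ) (hs : 0 < s)
    (hA : ∀ i j, i ≠ j → dist (A i) (A j) = s) (K : Set (EuclideanSpace ℝ (Fin 3)))
    (hK : IsCompact K) (hconv : Convex ℝ K) (hint : (interior K).Nonempty) 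
    (hrot : IsRotor (prism A) (face A) K) :
    ∃ p : EuclideanSpace ℝ (Fin 3), K = Metric.closedBall p (s / (2 * √3)) := by
  have hne : K.Nonempty := hint.mono interior_subset
  have h3 : (√3 : ℝ) ^ 2 = 3 := Real.sq_sqrt (by norm_num)
  have h3pos : (0 : ℝ) < √3 := Real.sqrt_pos.mpr (by norm_num)
  obtain ⟨G, hG⟩ : ∃ G, G = (1 / 3 : ℝ) • (A 0 + A 1 + A 2) := ⟨_, rfl⟩
  obtain ⟨hB1, hB2, hB3⟩ := equilateral A s hA G hG
  -- outward normals
  obtain ⟨ν, hν⟩ : ∃ ν : Fin 3 → E2, ∀ i, ν i = (-(√3 / s)) • (A i - G) := ⟨_, fun _ => rfl⟩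
  obtain ⟨N, hN⟩ : ∃ N : Fin 3 → E3, ∀ i, N i = !₂[ν i 0, ν i 1, 0] := ⟨_, fun _ => rfl⟩
  have hN0 : ∀ i, N i 0 = ν i 0 := fun i => by rw [hN]; rfl
  have hN1 : ∀ i, N i 1 = ν i 1 := fun i => by rw [hN]; rfl
  have hN2 : ∀ i, N i 2 = 0 := fun i => by rw [hN]; rfl
  have hNin : ∀ i (x : E3), ⟪x, N i⟫ = ⟪shadow x, ν i⟫ := by
    intro i x
    rw [inner_E3, inner_E2, hN0, hN1, hN2]
    change _ = x 0 * ν i 0 + x 1 * ν i 1
    ring
  have hNN : ∀ i j, ⟪N i, N j⟫ = ⟪ν i, ν j⟫ := by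
    intro i j
    rw [inner_E3, inner_E2, hN0, hN1, hN2, hN0, hN1, hN2]; ring
  have hνν : ∀ i, ⟪ν i, ν i⟫ = 1 := by
    intro i
    rw [hν, inner_smul_left, inner_smul_right, RCLike.conj_to_real, hB1]
    field_simp
    linarith
  have hνν' : ∀ i j, i ≠ j → ⟪ν i, ν j⟫ = -(1 / 2) := by
    intro i j hij
    rw [hν, hν, inner_smul_left, inner_smul_right, RCLike.conj_to_real, hB2 i j hij]
    field_simp
    linarith
  have hNnorm : ∀ i, ‖N i‖ = 1 := by
    intro i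
    have h : ‖N i‖ ^ 2 = 1 := by rw [← real_inner_self_eq_norm_sq, hNN, hνν]
    have := norm_nonneg (N i)
    nlinarith
  have hνsum : ν 0 + ν 1 + ν 2 = 0 := by
    rw [hν, hν, hν, ← smul_add, ← smul_add, hB3, smul_zero]
  have hNsum : N 0 + N 1 + N 2 = 0 := by
    apply ext3
    · simp only [PiLp.add_apply, hN0]
      have := congrArg (fun x : E2 => x 0) hνsum
      simpa using this
    · simp only [PiLp.add_apply, hN1]
      have := congrArg (fun x : E2 => x 1) hνsum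
      simpa using this
    · simp only [PiLp.add_apply, hN2]
      simp
  obtain ⟨r, hr⟩ : ∃ r, r = s / (2 * √3) := ⟨_, rfl⟩
  have hrpos : 0 < r := by rw [hr]; positivity
  have hvert : ∀ i j, i ≠ j → ⟪A j, ν i⟫ = r + ⟪G, ν i⟫ := by
    intro i j hij
    have h1 : ⟪A j - G, ν i⟫ = r := by
      rw [hν, inner_smul_right, hB2 j i hij.symm, hr]
      field_simp
      linarith
    rw [inner_sub_left] at h1
    linarith
  have hvert' : ∀ i, ⟪A i, ν i⟫ ≤ r + ⟪G, ν i⟫ := by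
    intro i
    have h1 : ⟪A i - G, ν i⟫ = -(2 * r) := by
      rw [hν, inner_smul_right, hB1 i, hr]
      field_simp
      linarith
    rw [inner_sub_left] at h1
    linarith
  have hprism : ∀ i, ∀ x ∈ prism A, ⟪x, N i⟫ ≤ r + ⟪G, ν i⟫ := by
    intro i x hx
    rw [hNin]
    have hsub : convexHull ℝ (Set.range A) ⊆ {y : E2 | ⟪y, ν i⟫ ≤ r + ⟪G, ν i⟫} := by
      apply convexHull_min
      · rintro _ ⟨j, rfl⟩
        rcases eq_or_ne i j with rfl | hij
        · exact hvert' i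
        · exact (hvert i j hij).le
      · intro y hy z hz a b ha hb hab
        simp only [mem_ofPred_eq] at hy hz ⊢
        rw [inner_add_left, inner_smul_left, inner_smul_left, RCLike.conj_to_real,
          RCLike.conj_to_real]
        have h1 := mul_le_mul_of_nonneg_left hy ha
        have h2 := mul_le_mul_of_nonneg_left hz hb
        have h4 : a * (r + ⟪G, ν i⟫) + b * (r + ⟪G, ν i⟫) = r + ⟪G, ν i⟫ := by
          rw [← add_mul, hab, one_mul]
        linarith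
    exact hsub hx
  have hface : ∀ i, ∀ x ∈ face A i, ⟪x, N i⟫ = r + ⟪G, ν i⟫ := by
    intro i x hx
    rw [hNin]
    obtain ⟨a, b, ha, hb, hab, hxab⟩ := hx
    rw [← hxab, inner_add_left, inner_smul_left, inner_smul_left, RCLike.conj_to_real,
      RCLike.conj_to_real, hvert i (i + 1) (by fin_cases i <;> decide),
      hvert i (i + 2) (by fin_cases i <;> decide), ← add_mul, hab, one_mul]
  -- the support function equation
  have hmain : ∀ a b c : E3, ‖a‖ = 1 → ‖b‖ = 1 → ‖c‖ = 1 → a + b + c = 0 →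
      supp K a + supp K b + supp K c = 3 * r := by
    intro a b c ha hb hc habc
    have hc' : c = -(a + b) := by
      rw [eq_neg_iff_add_eq_zero, add_comm]; exact habc
    have hab : ⟪a, b⟫ = -(1 / 2) := by
      have h1 : ‖c‖ ^ 2 = ‖a + b‖ ^ 2 := by rw [hc', norm_neg]
      rw [@norm_add_sq_real, ha, hb, hc] at h1
      linarith
    obtain ⟨ρ, hρ, hρa, hρb⟩ := exists_rotation a b (N 0) (N 1) ha hb (hNnorm 0) (hNnorm 1)
      (by rw [hab, hNN, hνν' 0 1 (by decide)]) (hN2 0) (hN2 1)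
    have hρc : ρ c = N 2 := by
      rw [hc', map_neg, map_add, hρa, hρb, neg_eq_iff_add_eq_zero]
      exact hNsum
    obtain ⟨t, ht1, ht2⟩ := hrot ρ hρ
    have hs1 : ∀ i (v : E3), ρ v = N i → supp K v = r + ⟪G, ν i⟫ - ⟪t, N i⟫ := by
      intro i v hv
      have hval : ∀ x, ⟪v, x⟫ = ⟪ρ x + t, N i⟫ - ⟪t, N i⟫ := by
        intro x
        rw [inner_add_left, ← hv, ρ.inner_map_map, real_inner_comm]
        ring
      apply supp_eq
      · intro x hx
        have := hprism i _ (ht1 x hx)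
        rw [hval]
        linarith
      · obtain ⟨x, hx, hxf⟩ := ht2 i
        have := hface i _ hxf
        refine ⟨x, hx, ?_⟩
        rw [hval]
        linarith
    rw [hs1 0 a hρa, hs1 1 b hρb, hs1 2 c hρc]
    have g1 : ⟪G, ν 0⟫ + ⟪G, ν 1⟫ + ⟪G, ν 2⟫ = 0 := by
      rw [← inner_add_right, ← inner_add_right, hνsum, inner_zero_right]
    have g2 : ⟪t, N 0⟫ + ⟪t, N 1⟫ + ⟪t, N 2⟫ = 0 := by
      rw [← inner_add_right, ← inner_add_right, hNsum, inner_zero_right]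
    linarith
  have hcont : Continuous (fun v => supp K v - r * ‖v‖) :=
    (continuous_supp K hK).sub (continuous_const.mul continuous_norm)
  obtain ⟨p, hp⟩ := triple_linear hcont
    (fun s hs v => by
      rw [supp_smul K hK hne s hs, norm_smul, Real.norm_of_nonneg hs]; ring)
    (fun u v w hu hv hw h => by
      rw [hu, hv, hw]
      have := hmain u v w hu hv hw h
      linarith)
  refine ⟨p, ?_⟩
  rw [← hr]
  apply eq_of_supp_eq_ball K hK hconv hne p r hrpos.le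
  intro v hv
  have := hp v hv
  rw [hv] at this
  linarith

end Pool.Agent.Results.MP_c2e62a_gt.RotorsAreBalls
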